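import Pool.Agent.Results.MP_277989_mp.CriticalCoupling
import Pool.Agent.H172R3.CSG.R

/-!
# The gap below the critical Chern-Simons coupling is of order `sqrt (|Ω| / N)`

The definitions (`cellArea`, `IsSolution`, `couplings`, `criticalCoupling`, ...) are those of the
file `CriticalCoupling.lean` of the same folder.

Let `κ₀ = (1/2) sqrt (|Ω| / (π N))`. For every torus `Ω`, every `N` and all vortex points the gap
`κ₀ - κ_c` lies between `κ₀ / 15000` and `κ₀`. The upper bound cannot be lowered: for `m` vortices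
at one point of the torus `ℝ²/(ℤ × mℤ)` the quotient of the gap and `κ₀` tends to `1`, while for `m`
equally spaced vortices on the same torus it is at most `4/5`.

Idea of the lower bound: near a point where the solution is not small there are few vortices on
every scale; a distance function argument then shows that `e^u ≤ 1/4` on a set whose area is at
least `N / (36 λ)`, `λ = 4/κ²`, and this improves the identity `4πN = λ ∫ e^u (1 - e^u)`.
-/

set_option autoImplicit false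

namespace Pool.Agent.Results.MP_277989_mp.GapBounds

open MeasureTheory Filter Topology Set
open Pool.Agent.Helper676
open Pool.Agent.Results.MP_277989_mp.CriticalCoupling

/-- The upper bound `κ₀ = (1/2) sqrt (|Ω| / (π N))` for the critical coupling. -/
noncomputable def kappa0 (ω₁ ω₂ : ℝ × ℝ) (N : ℕ) : ℝ :=
  1 / 2 * Real.sqrt (cellArea ω₁ ω₂ / (Real.pi * N))

open Pool.Agent.H172R3.CSG in
/-- A solution in the sense of the problem is a distributional solution. -/
lemma toSolG {ω₁ ω₂ : ℝ × ℝ} {κ : ℝ} {N : ℕ} {p : Fin N → ℝ × ℝ}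
    {u : ℝ × ℝ → ℝ} (h : IsSolution ω₁ ω₂ κ p u) :
    Pool.Agent.H172R3.CSG.Sol ω₁ ω₂ (4 / κ ^ 2) p u := by
  obtain ⟨u₀, v, gx, gy, h0, hv, hu, hF, heq⟩ := h
  have hvl := locInt_of_sq hv.aesm hv.sq
  have hgx := locInt_of_sq hv.aesm_gx hv.sq_gx
  have hgy := locInt_of_sq hv.aesm_gy hv.sq_gy
  have hu' : u = fun z => u₀ z + v z := funext hu
  have hlat : ∀ a, latticeVec ω₁ ω₂ a = lv ω₁ ω₂ a := fun a => rfl
  refine ⟨?_, hF, ?_, ?_⟩
  · rw [hu']; exact h0.locallyIntegrable.add hvl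
  · intro a z
    have a1 := h0.periodic a z
    have a2 := hv.periodic a z
    rw [hlat] at a1 a2
    rw [hu, hu, a1, a2]
  · intro φ hφ hc
    have hφ2 := hφ.of_le CS.two_le_infty
    have i0 : Integrable (fun z => u₀ z * CS.lap φ z) := by
      have := CS.integrable_mul_of_compact (CS.continuous_lap hφ2) (CS.hasCompactSupport_lap hc)
        h0.locallyIntegrable
      simpa [mul_comm] using this
    have iv : Integrable (fun z => v z * CS.lap φ z) := by
      have := CS.integrable_mul_of_compact (CS.continuous_lap hφ2) (CS.hasCompactSupport_lap hc) hvl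
      simpa [mul_comm] using this
    have ivd : ∀ e, Integrable (fun z => v z * CS.dd e (CS.dd e φ) z) := by
      intro e
      have := CS.integrable_mul_of_compact
        (CS.contDiff_dd_infty (CS.contDiff_dd_infty hφ e) e).continuous
        (CS.hasCompactSupport_dd (CS.hasCompactSupport_dd hc e) e) hvl
      simpa [mul_comm] using this
    have igx : Integrable (fun z => gx z * ddx φ z) := by
      have := CS.integrable_mul_of_compact (CS.contDiff_dd_infty hφ (1, 0)).continuous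
        (CS.hasCompactSupport_dd hc (1, 0)) hgx
      exact this.congr (Eventually.of_forall fun z => mul_comm _ _)
    have igy : Integrable (fun z => gy z * ddy φ z) := by
      have := CS.integrable_mul_of_compact (CS.contDiff_dd_infty hφ (0, 1)).continuous
        (CS.hasCompactSupport_dd hc (0, 1)) hgy
      exact this.congr (Eventually.of_forall fun z => mul_comm _ _)
    have ex := hv.weak_x (ddx φ) ⟨CS.contDiff_dd_infty hφ (1, 0), CS.hasCompactSupport_dd hc (1, 0)⟩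
    have ey := hv.weak_y (ddy φ) ⟨CS.contDiff_dd_infty hφ (0, 1), CS.hasCompactSupport_dd hc (0, 1)⟩
    have e1 : ∫ z, v z * CS.lap φ z = (∫ z, v z * ddx (ddx φ) z) + ∫ z, v z * ddy (ddy φ) z := by
      change ∫ z, v z * CS.lap φ z = (∫ z, v z * CS.dd (1, 0) (CS.dd (1, 0) φ) z) +
        ∫ z, v z * CS.dd (0, 1) (CS.dd (0, 1) φ) z
      rw [← integral_add (ivd (1, 0)) (ivd (0, 1))]
      congr 1; ext z
      rw [CS.lap, CS.dx_eq, CS.dy_eq]; ring
    have e2 := heq φ ⟨hφ, hc⟩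
    rw [integral_add igx igy] at e2
    have e3 := h0.equation φ ⟨hφ, hc⟩
    rw [laplace_eq] at e3
    have e4 : ∫ z, u z * CS.lap φ z = (∫ z, u₀ z * CS.lap φ z) + ∫ z, v z * CS.lap φ z := by
      rw [← integral_add i0 iv]
      congr 1; ext z
      rw [hu]; ring
    have e5 : vortexSum ω₁ ω₂ p φ = ∑ j, ∑' a, φ (p j + lv ω₁ ω₂ a) := rfl
    rw [e4, e1, ex, ey, e3, ← e5]
    have e6 : ∀ z, CS.Ff (u z) = Real.exp (u z) * (Real.exp (u z) - 1) := fun z => rfl
    simp only [e6]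
    linarith

/-- every coupling with a solution is at most `(1 - 1/15000) κ₀` -/
lemma coupling_le {ω₁ ω₂ : ℝ × ℝ} {N : ℕ} {p : Fin N → ℝ × ℝ} (hA : 0 < cellArea ω₁ ω₂)
    (hN : 1 ≤ N) {κ : ℝ} (hκ : κ ∈ couplings ω₁ ω₂ p) :
    κ ≤ (1 - 1 / 15000) * kappa0 ω₁ ω₂ N := by
  obtain ⟨hκ0, u, hu⟩ := hκ
  have hδ : Pool.Agent.H172R3.CSG.dt ω₁ ω₂ ≠ 0 := abs_pos.1 hA
  have hN0 : (0 : ℝ) < N := by exact_mod_cast hN
  have h1 := (toSolG hu).improved hδ (by positivity)
  have har : Pool.Agent.H172R3.CSG.ar ω₁ ω₂ = cellArea ω₁ ω₂ := rfl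
  rw [har, div_mul_eq_mul_div, le_div_iff₀ (by positivity)] at h1
  have hpi := Real.pi_gt_three
  have hpi2 := Real.pi_lt_d2
  set A := cellArea ω₁ ω₂ with hAdef
  have hk0 : 0 ≤ kappa0 ω₁ ω₂ N := by unfold kappa0; positivity
  have hsq : kappa0 ω₁ ω₂ N ^ 2 = A / (4 * Real.pi * N) := by
    unfold kappa0
    rw [mul_pow, Real.sq_sqrt (by positivity)]
    field_simp
    rw [hAdef]
    ring
  have h2 : κ ^ 2 ≤ ((1 - 1 / 15000) * kappa0 ω₁ ω₂ N) ^ 2 := by
    rw [mul_pow, hsq, mul_div_assoc', le_div_iff₀ (by positivity)]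
    have h3 : κ ^ 2 * (4 * Real.pi * N) * (4 + 1 / (576 * Real.pi)) =
        (16 * Real.pi + 1 / 144) * N * κ ^ 2 := by
      field_simp
      ring
    have h4 : (4 : ℝ) + 1 / (576 * Real.pi) ≥ 4 * (1 + 1 / 7300) := by
      have : 1 / (576 * Real.pi) ≥ 4 / 7300 := by
        rw [ge_iff_le, div_le_div_iff₀ (by norm_num) (by positivity)]
        nlinarith
      linarith
    have h5 : 0 ≤ κ ^ 2 * (4 * Real.pi * N) := by positivity
    have h6 : κ ^ 2 * (4 * Real.pi * N) * (4 * (1 + 1 / 7300)) ≤ 4 * A := by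
      calc κ ^ 2 * (4 * Real.pi * N) * (4 * (1 + 1 / 7300))
          ≤ κ ^ 2 * (4 * Real.pi * N) * (4 + 1 / (576 * Real.pi)) :=
            mul_le_mul_of_nonneg_left h4 h5
        _ = (16 * Real.pi + 1 / 144) * N * κ ^ 2 := h3
        _ ≤ 4 * A := h1
    nlinarith
  exact (pow_le_pow_iff_left₀ hκ0.le (by positivity) (by norm_num)).1 h2

lemma kappa0_torus {m : ℕ} (hm : 1 ≤ m) :
    1 / 4 ≤ kappa0 (1, 0) (0, (m : ℝ)) m ∧ kappa0 (1, 0) (0, (m : ℝ)) m ≤ 5 / 16 := by
  have hm0 : (0 : ℝ) < m := by exact_mod_cast hm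
  have hpi := Real.pi_gt_three
  have hpi2 := Real.pi_lt_d2
  unfold kappa0
  rw [area_eq]
  have h1 : (m : ℝ) / (Real.pi * m) = 1 / Real.pi := by field_simp
  rw [h1]
  constructor
  · have : (1 / 2 : ℝ) ≤ Real.sqrt (1 / Real.pi) := by
      apply Real.le_sqrt_of_sq_le
      rw [le_div_iff₀ (by positivity)]
      linarith
    linarith
  · have : Real.sqrt (1 / Real.pi) ≤ 5 / 8 := by
      rw [Real.sqrt_le_left (by norm_num), div_le_iff₀ (by positivity)]
      linarith
    linarith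

/-- **Main theorem.** With `κ₀ = (1/2) sqrt (|Ω| / (π N))`: for every torus, every `N ≥ 1` and all
vortex points, every coupling with a solution is at most `(1 - 1/15000) κ₀`, and
`κ₀ / 15000 ≤ κ₀ - κ_c ≤ κ₀`. On the tori `ℝ²/(ℤ × mℤ)` with `m` vortices the quotient
`(κ₀ - κ_c) / κ₀` tends to `1` for a single vortex of multiplicity `m` and is at most `4/5` for `m`
equally spaced simple vortices. -/
theorem result :
    (∀ (ω₁ ω₂ : ℝ × ℝ) (N : ℕ) (p : Fin N → ℝ × ℝ), 0 < cellArea ω₁ ω₂ → 1 ≤ N →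
      (∀ κ ∈ couplings ω₁ ω₂ p, κ ≤ (1 - 1 / 15000) * kappa0 ω₁ ω₂ N) ∧
      1 / 15000 * kappa0 ω₁ ω₂ N ≤ kappa0 ω₁ ω₂ N - criticalCoupling ω₁ ω₂ p ∧
      kappa0 ω₁ ω₂ N - criticalCoupling ω₁ ω₂ p ≤ kappa0 ω₁ ω₂ N) ∧
    (∀ ε : ℝ, 0 < ε → ∃ m₀ : ℕ, ∀ m : ℕ, m₀ ≤ m →
      (1 - ε) * kappa0 (1, 0) (0, (m : ℝ)) m ≤
        kappa0 (1, 0) (0, (m : ℝ)) m - criticalCoupling (1, 0) (0, (m : ℝ)) (clustered m)) ∧
    (∀ m : ℕ, 1 ≤ m →
      kappa0 (1, 0) (0, (m : ℝ)) m - criticalCoupling (1, 0) (0, (m : ℝ)) (spread m) ≤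
        4 / 5 * kappa0 (1, 0) (0, (m : ℝ)) m) := by
  refine ⟨?_, ?_, ?_⟩
  · intro ω₁ ω₂ N p hA hN
    have hk0 : 0 ≤ kappa0 ω₁ ω₂ N := by unfold kappa0; positivity
    have h1 : ∀ κ ∈ couplings ω₁ ω₂ p, κ ≤ (1 - 1 / 15000) * kappa0 ω₁ ω₂ N :=
      fun κ hκ => coupling_le hA hN hκ
    have h2 : criticalCoupling ω₁ ω₂ p ≤ (1 - 1 / 15000) * kappa0 ω₁ ω₂ N :=
      Real.sSup_le h1 (by positivity)
    have h3 : 0 ≤ criticalCoupling ω₁ ω₂ p := Real.sSup_nonneg fun κ hκ => hκ.1.le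
    exact ⟨h1, by linarith, by linarith⟩
  · intro ε hε
    obtain ⟨m₀, hm₀, h⟩ := clustered_small (show 0 < ε / 4 by positivity)
    refine ⟨m₀, fun m hm => ?_⟩
    have hm1 : 1 ≤ m := hm₀.trans hm
    have h1 : criticalCoupling (1, 0) (0, (m : ℝ)) (clustered m) ≤ ε / 4 :=
      Real.sSup_le (fun κ hκ => (h m hm κ hκ).le) (by positivity)
    have h2 := (kappa0_torus hm1).1
    nlinarith
  · intro m hm
    have h1 : 1 / 16 ≤ criticalCoupling (1, 0) (0, (m : ℝ)) (spread m) :=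
      le_csSup ⟨1, fun κ hκ => bddAbove_couplings hm _ κ hκ⟩ (coupling_spread hm)
    have h2 := (kappa0_torus hm).2
    linarith

end Pool.Agent.Results.MP_277989_mp.GapBounds
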